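import Pool.Agent.H77.KG.Targets

/-!
Board kgr_modules (MP_9d0bb7_lc), row IN0: sums of a set contain an infinite definable subgroup.
-/

set_option autoImplicit false

open Set Pool.Agent.H77.BC Pool.Agent.H77.BD Pool.Agent.H77.KG

namespace Pool.Agent.H65.KGR

section aux

variable {M : Type} (U : RU M) {V : Type} [AddCommGroup V] [Cod M V] [DAb U V]

/-- the set of the points `v` with `v + w` in `Z` -/
private def tr (Z : Set V) (w : V) : Set V := {v | v + w ∈ Z}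

private lemma tr_D {Z : Set V} (hZ : U.D Z) (w : V) : U.D (tr Z w) :=
  DFn_preim (f := fun v : V => v + w) (DFn_aadd DFn_id (DFn_const w)) hZ

private lemma tr_ne {Z : Set V} (hZ : Z.Nonempty) (w : V) : (tr Z w).Nonempty := by
  obtain ⟨z, hz⟩ := hZ
  exact ⟨z - w, by change z - w + w ∈ Z; rwa [sub_add_cancel]⟩

private lemma tr_R {Z : Set V} (hZ : U.D Z) (hn : Z.Nonempty) (w : V) :
    U.R (tr Z w) = U.R Z := by
  have h1 : (fun v : V => v + w) '' tr Z w = Z := by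
    ext z
    constructor
    · rintro ⟨v, hv, rfl⟩
      exact hv
    · intro hz
      exact ⟨z - w, by change z - w + w ∈ Z; rwa [sub_add_cancel], sub_add_cancel z w⟩
  have h2 := (Pool.Agent.H77.BCP.a_RKB U).inj (X := tr Z w) (f := fun v : V => v + w)
    (tr_D U hZ w) (DFn_aadd DFn_id (DFn_const w)) (tr_ne hn w)
    (fun a _ b _ h => add_right_cancel h)
  rw [h1] at h2
  exact h2.symm

/-- subsets of full rank of a set of degree 1 -/
private lemma deg_inter {Y : Set V} (hY : U.D Y) (hYn : Y.Nonempty)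
    (hdeg : ∀ Z Z' : Set V, Z ⊆ Y → Z' ⊆ Y → U.D Z → U.D Z' → Z.Nonempty → Z'.Nonempty →
      U.R Y ≤ U.R Z → U.R Y ≤ U.R Z' → (Z ∩ Z').Nonempty) {Z Z' : Set V} (hZ : Z ⊆ Y)
    (hZ' : Z' ⊆ Y) (hD : U.D Z) (hD' : U.D Z') (hn : Z.Nonempty) (hn' : Z'.Nonempty)
    (hR : U.R Z = U.R Y) (hR' : U.R Z' = U.R Y) :
    (Z ∩ Z').Nonempty ∧ U.R (Z ∩ Z') = U.R Y := by
  have h1 := hdeg Z Z' hZ hZ' hD hD' hn hn' hR.ge hR'.ge
  refine ⟨h1, ?_⟩
  have hle : U.R (Z ∩ Z') ≤ U.R Y := (Pool.Agent.H77.BCP.a_RKA U).mono (D_inter hD hD') hY h1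
    (inter_subset_left.trans hZ)
  by_contra hne
  rcases (Z \ Z').eq_empty_or_nonempty with h0 | h0
  · have h2 : Z ∩ Z' = Z := inter_eq_left.2 (sdiff_eq_empty.1 h0)
    rw [h2] at hne
    exact hne hR
  · have h3 := (Pool.Agent.H77.BCP.a_RKA U).union (D_inter hD hD') (D_diff hD hD') h1 h0
    rw [inter_union_sdiff, hR] at h3
    have h4 : U.R Y ≤ U.R (Z \ Z') := by omega
    obtain ⟨z, hz1, hz2⟩ := hdeg (Z \ Z') Z' (sdiff_subset.trans hZ) hZ' (D_diff hD hD') hD' h0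
      hn' h4 hR'.ge
    exact hz1.2 hz2

/-- the stabiliser of a set of degree 1 -/
private def stz (Y : Set V)
    (h : ∀ w w' : V, ((Y ∩ tr Y (-w)).Nonempty ∧ U.R (Y ∩ tr Y (-w)) = U.R Y) →
      ((Y ∩ tr Y (-w')).Nonempty ∧ U.R (Y ∩ tr Y (-w')) = U.R Y) →
      ((Y ∩ tr Y (-(w + w'))).Nonempty ∧ U.R (Y ∩ tr Y (-(w + w'))) = U.R Y))
    (h0 : (Y ∩ tr Y (-0)).Nonempty ∧ U.R (Y ∩ tr Y (-0)) = U.R Y)
    (hneg : ∀ w : V, ((Y ∩ tr Y (-w)).Nonempty ∧ U.R (Y ∩ tr Y (-w)) = U.R Y) →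
      ((Y ∩ tr Y (- -w)).Nonempty ∧ U.R (Y ∩ tr Y (- -w)) = U.R Y)) : AddSubgroup V where
  carrier := {w | (Y ∩ tr Y (-w)).Nonempty ∧ U.R (Y ∩ tr Y (-w)) = U.R Y}
  add_mem' := fun {a b} ha hb => h a b ha hb
  zero_mem' := h0
  neg_mem' := fun {a} ha => hneg a ha

end aux

/-- IN0: sums of a set contain an infinite definable subgroup -/
theorem pf_IN0 (hIRR : T_IRR) (_hADT : T_ADT) : T_IN0 := by
  intro M U V _ _ _ X hX hmono hneg hadd ⟨k1, hk1⟩
  have hA := Pool.Agent.H77.BCP.a_RKA U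
  have hB := Pool.Agent.H77.BCP.a_RKB U
  -- the largest rank
  obtain ⟨k, hkn, hkmax⟩ : ∃ k, (X k).Nonempty ∧ ∀ l, (X l).Nonempty → U.R (X l) ≤ U.R (X k) := by
    have hbd : BddAbove {r | ∃ k, (X k).Nonempty ∧ U.R (X k) = r} := by
      refine ⟨U.R (univ : Set V), ?_⟩
      rintro r ⟨k, hk, rfl⟩
      exact hA.mono (hX k) Ful.full hk (subset_univ _)
    have hne : {r | ∃ k, (X k).Nonempty ∧ U.R (X k) = r}.Nonempty := ⟨_, k1, hk1.nonempty, rfl⟩
    obtain ⟨k, hk, hr⟩ := Nat.sSup_mem hne hbd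
    refine ⟨k, hk, fun l hl => ?_⟩
    rw [hr]
    exact le_csSup hbd ⟨l, hl, rfl⟩
  have hr1 : U.R (X k) ≠ 0 := by
    intro h0
    have h1 := hkmax k1 hk1.nonempty
    have h2 : U.R (X k1) = 0 := by omega
    exact hk1 ((hA.fin (hX k1) hk1.nonempty).1 h2)
  have hle2 : X k ⊆ X (k + k) := by
    have h : ∀ m, X k ⊆ X (k + m) := by
      intro m
      induction m with
      | zero => exact Subset.rfl
      | succ m ih => exact ih.trans (hmono _)
    exact h k
  have h2n : (X (k + k)).Nonempty := hkn.mono hle2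
  have h2R : U.R (X (k + k)) ≤ U.R (X k) := hkmax _ h2n
  obtain ⟨Y, hYX, hYD, hYn, hYR, hdeg⟩ := hIRR U (X k) (hX k) hkn
  have hYm : ∀ Z : Set V, U.D Z → Z.Nonempty → Z ⊆ Y → U.R Z ≤ U.R Y := fun Z h1 h2 h3 =>
    hA.mono h1 hYD h2 h3
  have hP0 : (Y ∩ tr Y (-0)).Nonempty ∧ U.R (Y ∩ tr Y (-0)) = U.R Y := by
    have h : Y ∩ tr Y (-0) = Y := by
      refine inter_eq_left.2 fun y hy => ?_
      change y + -0 ∈ Y
      rwa [neg_zero, add_zero]
    rw [h]
    exact ⟨hYn, rfl⟩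
  have hPneg : ∀ w : V, ((Y ∩ tr Y (-w)).Nonempty ∧ U.R (Y ∩ tr Y (-w)) = U.R Y) →
      ((Y ∩ tr Y (- -w)).Nonempty ∧ U.R (Y ∩ tr Y (- -w)) = U.R Y) := by
    rintro w ⟨h1, h2⟩
    have h : Y ∩ tr Y (- -w) = tr (Y ∩ tr Y (-w)) w := by
      ext y
      constructor
      · rintro ⟨h3, h4⟩
        have h4' : y + - -w ∈ Y := h4
        rw [neg_neg] at h4'
        refine ⟨h4', ?_⟩
        change y + w + -w ∈ Y
        rwa [add_neg_cancel_right]
      · rintro ⟨h3, h4⟩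
        have h4' : y + w + -w ∈ Y := h4
        rw [add_neg_cancel_right] at h4'
        refine ⟨h4', ?_⟩
        change y + - -w ∈ Y
        rwa [neg_neg]
    rw [h]
    exact ⟨tr_ne h1 w, (tr_R U (D_inter hYD (tr_D U hYD _)) h1 w).trans h2⟩
  have hPadd : ∀ w w' : V, ((Y ∩ tr Y (-w)).Nonempty ∧ U.R (Y ∩ tr Y (-w)) = U.R Y) →
      ((Y ∩ tr Y (-w')).Nonempty ∧ U.R (Y ∩ tr Y (-w')) = U.R Y) →
      ((Y ∩ tr Y (-(w + w'))).Nonempty ∧ U.R (Y ∩ tr Y (-(w + w'))) = U.R Y) := by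
    intro w w' hw hw'
    obtain ⟨h1, h2⟩ := hPneg w hw
    obtain ⟨h3, h4⟩ := hw'
    have hD1 : U.D (Y ∩ tr Y (- -w)) := D_inter hYD (tr_D U hYD _)
    have hD2 : U.D (Y ∩ tr Y (-w')) := D_inter hYD (tr_D U hYD _)
    obtain ⟨h5, h6⟩ := deg_inter U hYD hYn hdeg inter_subset_left inter_subset_left hD1 hD2 h1
      h3 h2 h4
    have hD3 := D_inter hD1 hD2
    have hsub : tr (Y ∩ tr Y (- -w) ∩ (Y ∩ tr Y (-w'))) (-w) ⊆ Y ∩ tr Y (-(w + w')) := by
      rintro z ⟨⟨_, h7⟩, ⟨_, h8⟩⟩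
      have h7' : z + -w + - -w ∈ Y := h7
      have h8' : z + -w + -w' ∈ Y := h8
      rw [neg_neg, neg_add_cancel_right] at h7'
      refine ⟨h7', ?_⟩
      change z + -(w + w') ∈ Y
      have e : z + -(w + w') = z + -w + -w' := by abel
      rwa [e]
    have h9 := tr_ne h5 (-w)
    have h10 := tr_R U hD3 h5 (-w)
    have hD4 : U.D (Y ∩ tr Y (-(w + w'))) := D_inter hYD (tr_D U hYD _)
    have h11 := hA.mono (tr_D U hD3 (-w)) hD4 h9 hsub
    have h12 := h9.mono hsub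
    refine ⟨h12, le_antisymm (hYm _ hD4 h12 inter_subset_left) ?_⟩
    rw [h10, h6] at h11
    exact h11
  set St := stz U Y hPadd hP0 hPneg with hSt
  have hmem : ∀ w : V, w ∈ St ↔ (Y ∩ tr Y (-w)).Nonempty ∧ U.R (Y ∩ tr Y (-w)) = U.R Y :=
    fun w => Iff.rfl
  have hStX : (St : Set V) ⊆ X (k + k) := by
    intro w hw
    obtain ⟨⟨y, hy1, hy2⟩, _⟩ := (hmem w).1 hw
    have hy2' : y + -w ∈ Y := hy2
    have h := hadd k k y (hYX hy1) (-(y + -w)) (hneg k _ (hYX hy2'))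
    have e : y + -(y + -w) = w := by abel
    rwa [e] at h
  have hStD : U.D (St : Set V) := by
    have hZ : U.D {p : V × V | p.2 ∈ Y ∧ p.2 + -p.1 ∈ Y} :=
      D_and (DFn_preim (f := fun p : V × V => p.2) DFn_snd hYD)
        (DFn_preim (f := fun p : V × V => p.2 + -p.1) (DFn_aadd DFn_snd (DFn_aneg DFn_fst)) hYD)
    have h := hB.sec_def (U.R Y) hZ
    have e : (St : Set V) = {a | (∃ b, (a, b) ∈ {p : V × V | p.2 ∈ Y ∧ p.2 + -p.1 ∈ Y}) ∧
        U.R {b | (a, b) ∈ {p : V × V | p.2 ∈ Y ∧ p.2 + -p.1 ∈ Y}} = U.R Y} := rfl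
    rw [e]
    exact h
  refine ⟨k + k, St, hStD, ?_, hStX⟩
  -- the stabiliser is infinite
  intro hfin
  have hYinf : Y.Infinite := by
    intro h
    have := (hA.fin hYD hYn).2 h
    omega
  have himg : ((fun v : V => (QuotientAddGroup.mk v : V ⧸ St)) '' Y).Infinite := by
    intro himg
    refine hYinf (Set.Finite.of_finite_fibers (fun v : V => (QuotientAddGroup.mk v : V ⧸ St))
      himg ?_)
    rintro _ ⟨y0, _, rfl⟩
    refine (hfin.image fun s => y0 + s).subset ?_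
    rintro y ⟨_, hy⟩
    have hy' : (QuotientAddGroup.mk y : V ⧸ St) = QuotientAddGroup.mk y0 := hy
    rw [eq_comm, QuotientAddGroup.eq] at hy'
    exact ⟨-y0 + y, hy', add_neg_cancel_left y0 y⟩
  obtain ⟨em⟩ : Nonempty (ℕ ↪ ((fun v : V => (QuotientAddGroup.mk v : V ⧸ St)) '' Y)) :=
    ⟨himg.natEmbedding _⟩
  have hch : ∀ i, ∃ y ∈ Y, (QuotientAddGroup.mk y : V ⧸ St) = (em i).1 := fun i => by
    obtain ⟨y, hy, h⟩ := (em i).2
    exact ⟨y, hy, h⟩
  choose y hyY hym using hch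
  have hdiff : ∀ i j, i ≠ j → y i - y j ∉ St := by
    intro i j hij h
    have h1 : (QuotientAddGroup.mk (y j) : V ⧸ St) = QuotientAddGroup.mk (y i) := by
      rw [QuotientAddGroup.eq]
      have e : -y j + y i = y i - y j := by abel
      rwa [e]
    rw [hym, hym] at h1
    exact hij (em.injective (Subtype.ext h1)).symm
  have hCD : ∀ i, U.D (tr Y (y i)) := fun i => tr_D U hYD _
  have hCn : ∀ i, (tr Y (y i)).Nonempty := fun i => tr_ne hYn _
  have hCR : ∀ i, U.R (tr Y (y i)) = U.R Y := fun i => tr_R U hYD hYn _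
  have hCX : ∀ i, tr Y (y i) ⊆ X (k + k) := by
    intro i v hv
    have hv' : v + y i ∈ Y := hv
    have h := hadd k k (v + y i) (hYX hv') (-(y i)) (hneg k _ (hYX (hyY i)))
    rwa [add_neg_cancel_right] at h
  have hCC : ∀ i j, i ≠ j → (tr Y (y i) ∩ tr Y (y j)).Nonempty →
      U.R (tr Y (y i) ∩ tr Y (y j)) < U.R Y := by
    intro i j hij hn
    have e : tr Y (y i) ∩ tr Y (y j) = tr (Y ∩ tr Y (-(y i - y j))) (y i) := by
      ext v
      have e2 : v + y i + -(y i - y j) = v + y j := by abel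
      constructor
      · rintro ⟨h1, h2⟩
        refine ⟨h1, ?_⟩
        change v + y i + -(y i - y j) ∈ Y
        rw [e2]
        exact h2
      · rintro ⟨h1, h2⟩
        have h2' : v + y i + -(y i - y j) ∈ Y := h2
        rw [e2] at h2'
        exact ⟨h1, h2'⟩
    have hD := D_inter hYD (tr_D U hYD (-(y i - y j)))
    have hne : (Y ∩ tr Y (-(y i - y j))).Nonempty := by
      rw [e] at hn
      obtain ⟨v, hv⟩ := hn
      exact ⟨_, hv⟩
    rw [e, tr_R U hD hne]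
    refine lt_of_le_of_ne (hYm _ hD hne inter_subset_left) fun h => hdiff i j hij ?_
    exact ⟨hne, h⟩
  -- disjoint sets
  let D : ℕ → ℕ → Set V := fun i m => {v | v ∈ tr Y (y i) ∧ ∀ j < m, v ∉ tr Y (y j)}
  have hDs : ∀ i m, D i (m + 1) = D i m \ tr Y (y m) := by
    intro i m
    ext v
    constructor
    · rintro ⟨h1, h2⟩
      exact ⟨⟨h1, fun j hj => h2 j (by omega)⟩, h2 m (by omega)⟩
    · rintro ⟨⟨h1, h2⟩, h3⟩
      refine ⟨h1, fun j hj => ?_⟩
      rcases Nat.lt_succ_iff_lt_or_eq.1 hj with h | h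
      · exact h2 j h
      · rw [h]
        exact h3
  have hDk : ∀ i m, m ≤ i → U.D (D i m) ∧ (D i m).Nonempty ∧ U.R (D i m) = U.R Y := by
    intro i m
    induction m with
    | zero =>
      intro _
      have e : D i 0 = tr Y (y i) := by
        ext v
        exact ⟨fun h => h.1, fun h => ⟨h, fun j hj => absurd hj (Nat.not_lt_zero j)⟩⟩
      rw [e]
      exact ⟨hCD i, hCn i, hCR i⟩
    | succ m ih =>
      intro hm
      obtain ⟨i1, i2, i3⟩ := ih (by omega)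
      have hD' : U.D (D i (m + 1)) := by
        rw [hDs]
        exact D_diff i1 (hCD m)
      have hsm : (D i m ∩ tr Y (y m)).Nonempty → U.R (D i m ∩ tr Y (y m)) < U.R Y := by
        intro hn
        have hsub : D i m ∩ tr Y (y m) ⊆ tr Y (y i) ∩ tr Y (y m) := fun v hv => ⟨hv.1.1, hv.2⟩
        exact lt_of_le_of_lt (hA.mono (D_inter i1 (hCD m)) (D_inter (hCD i) (hCD m)) hn hsub)
          (hCC i m (by omega) (hn.mono hsub))
      have hun : (D i m ∩ tr Y (y m)) ∪ D i (m + 1) = D i m := by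
        rw [hDs]
        exact inter_union_sdiff _ _
      have hne : (D i (m + 1)).Nonempty := by
        by_contra h0
        rw [not_nonempty_iff_eq_empty] at h0
        rw [h0, union_empty] at hun
        have h1 := hsm (by rw [hun]; exact i2)
        rw [hun, i3] at h1
        exact lt_irrefl _ h1
      refine ⟨hD', hne, ?_⟩
      rcases (D i m ∩ tr Y (y m)).eq_empty_or_nonempty with h0 | h0
      · rw [h0, empty_union] at hun
        rw [hun, i3]
      · have h1 := hA.union (D_inter i1 (hCD m)) hD' h0 hne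
        rw [hun, i3] at h1
        have h2 := hsm h0
        omega
  have hsplit := hA.split (X := X (k + k)) (n := U.R Y) (fun i => D i i) (hX _)
    (fun i => ⟨(hDk i i le_rfl).1, (hDk i i le_rfl).2.1, fun v hv => hCX i hv.1,
      (hDk i i le_rfl).2.2.ge⟩) (by
      have key : ∀ i j, i < j → Disjoint (D i i) (D j j) := by
        intro i j hij
        rw [Set.disjoint_left]
        intro v h1 h2
        exact h2.2 i hij h1.1
      intro i j hij
      rcases Nat.lt_or_gt_of_ne hij with h | h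
      · exact key i j h
      · exact (key j i h).symm)
  omega

end Pool.Agent.H65.KGR
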