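import Pool.Agent.H77.KG.Targets

/-!
Board kgr_modules (MP_9d0bb7_lc), row SIM: simplicity of the simply laced Chevalley groups.
-/

set_option autoImplicit false

open Set Pool.Agent.H77.BC Pool.Agent.H77.BD Pool.Agent.H77.BDS Pool.Agent.H77.KG

namespace Pool.Agent.H65.KGR

variable {l : ℕ} {C : Matrix (Fin l) (Fin l) ℤ} {F Γ : Type} [Field F] [Group Γ]
  {x : Root C → F → Γ} {τ : (Fin l → Fˣ) →* Γ}

private lemma x_zero (h : CD x τ) (β : Root C) : x β 0 = 1 := by
  have h1 := h.add β 0 0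
  rw [add_zero] at h1
  exact (left_eq_mul.1 h1)

private lemma x_neg (h : CD x τ) (β : Root C) (t : F) : x β (-t) = (x β t)⁻¹ := by
  rw [eq_inv_iff_mul_eq_one, ← h.add, neg_add_cancel, x_zero h]

private lemma x_mem {p : Root C → Prop} {β : Root C} (hβ : p β) (t : F) : x β t ∈ Ug x p :=
  Subgroup.subset_closure ⟨β, t, hβ, rfl⟩

private lemma Ug_mono {p q : Root C → Prop} (hpq : ∀ β, p β → q β) : Ug x p ≤ Ug x q := by
  refine Subgroup.closure_mono ?_
  rintro g ⟨β, t, hβ, rfl⟩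
  exact ⟨β, t, hpq β hβ, rfl⟩

private lemma conj_Ug {p q : Root C → Prop} (g : Γ)
    (hg : ∀ β t, p β → g * x β t * g⁻¹ ∈ Ug x q) : ∀ u ∈ Ug x p, g * u * g⁻¹ ∈ Ug x q := by
  have h1 : Ug x p ≤ (Ug x q).comap (MulAut.conj g).toMonoidHom := by
    refine (Subgroup.closure_le _).2 ?_
    rintro _ ⟨β, t, hβ, rfl⟩
    exact hg β t hβ
  intro u hu
  exact h1 hu

private lemma ht_add (v w : Fin l → ℤ) : ht (v + w) = ht v + ht w := by
  unfold ht
  rw [← Finset.sum_add_distrib]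
  rfl

private lemma ht_si (i : Fin l) : ht (si i) = 1 := by
  unfold ht si
  simp

private lemma ht_pos {β : Root C} (hβ : IsPos β) : 1 ≤ ht β.1 := by
  have h0 : 0 ≤ ht β.1 := Finset.sum_nonneg fun i _ => hβ i
  by_contra hlt
  have h1 : ht β.1 = 0 := by omega
  have h2 := (Finset.sum_eq_zero_iff_of_nonneg (fun i _ => hβ i)).1 h1
  exact root_ne_zero β (funext fun i => h2 i (Finset.mem_univ i))

/-- positive roots of height at least 2 -/
private def P2 (β : Root C) : Prop := IsPos β ∧ 2 ≤ ht β.1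

private lemma pos_not_neg {β γ : Root C} (hβ : IsPos β) (hγ : IsPos γ) : γ.1 ≠ -β.1 := by
  intro h
  have h1 := ht_pos hβ
  have h2 := ht_pos hγ
  rw [h] at h2
  have h3 : ht (-β.1) = - ht β.1 := by
    unfold ht
    rw [← Finset.sum_neg_distrib]
    rfl
  omega

/-- commutators of positive root elements -/
private lemma comm_gen (hC : Cartan C) (h : CD x τ) {β γ : Root C} (hβ : IsPos β) (hγ : IsPos γ)
    (s t : F) : ∃ z ∈ Ug x P2, x β s * x γ t = z * (x γ t * x β s) := by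
  by_cases h0 : 0 ≤ ip C β.1 γ.1
  · exact ⟨1, Subgroup.one_mem _, by rw [one_mul, h.cmm β γ h0]⟩
  · have h1 := neg_one_le_ip hC β γ (pos_not_neg hβ hγ)
    have h2 : ip C β.1 γ.1 = -1 := by omega
    refine ⟨_, ?_, h.com β γ (ad hC β γ h2) rfl s t⟩
    refine x_mem ⟨fun i => ?_, ?_⟩ _
    · exact add_nonneg (hβ i) (hγ i)
    · rw [ad_val, ht_add]
      have := ht_pos hβ
      have := ht_pos hγ
      omega

private lemma P2_norm (hC : Cartan C) (h : CD x τ) : ∀ g ∈ Ug x IsPos, ∀ z ∈ Ug x P2,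
    g * z * g⁻¹ ∈ Ug x P2 := by
  have key : ∀ β : Root C, IsPos β → ∀ s : F, ∀ z ∈ Ug x P2,
      x β s * z * (x β s)⁻¹ ∈ Ug x P2 := by
    intro β hβ s
    refine conj_Ug _ fun γ t hγ => ?_
    obtain ⟨z, hz, he⟩ := comm_gen hC h hβ hγ.1 s t
    rw [he, mul_assoc, mul_assoc (x γ t), mul_inv_cancel, mul_one]
    exact Subgroup.mul_mem _ hz (x_mem hγ t)
  have h1 : Ug x IsPos ≤ Subgroup.normalizer (Ug x P2 : Set Γ) := by
    refine (Subgroup.closure_le _).2 ?_
    rintro _ ⟨β, s, hβ, rfl⟩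
    rw [SetLike.mem_coe, Subgroup.mem_normalizer_iff]
    intro z
    refine ⟨key β hβ s z, fun hz => ?_⟩
    have h2 := key β hβ (-s) _ hz
    rw [x_neg h, inv_inv] at h2
    have e : (x β s)⁻¹ * (x β s * z * (x β s)⁻¹) * x β s = z := by group
    rwa [e] at h2
  intro g hg z hz
  exact (Subgroup.mem_normalizer_iff.1 (h1 hg) z).1 hz

private lemma comm_Ug (hC : Cartan C) (h : CD x τ) {β : Root C} (hβ : IsPos β) (s : F) :
    ∀ u ∈ Ug x IsPos, ∃ z ∈ Ug x P2, u⁻¹ * x β s * u = x β s * z := by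
  intro u hu
  induction hu using Subgroup.closure_induction with
  | mem u hu =>
    obtain ⟨γ, t, hγ, rfl⟩ := hu
    obtain ⟨z, hz, he⟩ := comm_gen hC h hγ hβ (-t) s
    refine ⟨(x β s)⁻¹ * z * x β s, ?_, ?_⟩
    · have := P2_norm hC h (x β s)⁻¹ (Subgroup.inv_mem _ (x_mem hβ s)) z hz
      rwa [inv_inv] at this
    · rw [← x_neg h, he, x_neg h]
      group
  | one => exact ⟨1, Subgroup.one_mem _, by group⟩
  | mul u v hu hv ihu ihv =>
    obtain ⟨z, hz, he⟩ := ihu
    obtain ⟨z', hz', he'⟩ := ihv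
    refine ⟨z' * (v⁻¹ * z * v), Subgroup.mul_mem _ hz' ?_, ?_⟩
    · have := P2_norm hC h v⁻¹ (Subgroup.inv_mem _ hv) z hz
      rwa [inv_inv] at this
    · have e : (u * v)⁻¹ * x β s * (u * v) = v⁻¹ * (u⁻¹ * x β s * u) * v := by group
      have e2 : v⁻¹ * (x β s * z) * v = (v⁻¹ * x β s * v) * (v⁻¹ * z * v) := by group
      rw [e, he, e2, he', mul_assoc]
  | inv u hu ihu =>
    obtain ⟨z, hz, he⟩ := ihu
    refine ⟨(u * z * u⁻¹)⁻¹, Subgroup.inv_mem _ (P2_norm hC h u hu z hz), ?_⟩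
    have e : x β s = (u⁻¹⁻¹ * x β s * u⁻¹) * (u * z * u⁻¹) := by
      have : (u⁻¹⁻¹ * x β s * u⁻¹) * (u * z * u⁻¹) = u * (x β s * z) * u⁻¹ := by group
      rw [this, ← he]
      group
    rw [eq_mul_inv_iff_mul_eq]
    exact e.symm

/-- the reflection maps the other positive roots to positive roots -/
private lemma refl_pos (hC : Cartan C) (i : Fin l) {γ γ' : Root C} (hγ : IsPos γ)
    (hne : γ.1 ≠ si i) (he : γ'.1 = γ.1 - ip C γ.1 (si i) • si i) : IsPos γ' := by
  rcases (a_POS hC).1 γ' with h | h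
  · exact h
  · exfalso
    have h1 : ∀ k, k ≠ i → γ.1 k = 0 := by
      intro k hk
      have h2 := h k
      rw [he] at h2
      simp only [Pi.sub_apply, Pi.smul_apply, si, Pi.single_apply, hk, if_false, smul_eq_mul,
        mul_zero, sub_zero] at h2
      exact le_antisymm h2 (hγ k)
    have h3 : γ.1 = γ.1 i • si i := by
      funext k
      by_cases hk : k = i
      · subst hk
        simp [si]
      · rw [h1 k hk]
        simp [si, hk]
    have h4 := γ.2
    rw [h3, ip_smul_left, ip_smul_right, ip_si_si, hC.diag] at h4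
    have h5 : γ.1 i = 1 := by
      have h6 := hγ i
      nlinarith
    apply hne
    rw [h3, h5, one_smul]

/-- the Borel subgroup -/
private def BoS (h : CD x τ) : Subgroup Γ where
  carrier := Bo x τ
  one_mem' := ⟨1, 1, Subgroup.one_mem _, by rw [map_one, one_mul]⟩
  mul_mem' := by
    rintro _ _ ⟨c, u, hu, rfl⟩ ⟨c', u', hu', rfl⟩
    refine ⟨c * c', (τ c')⁻¹ * u * τ c' * u', Subgroup.mul_mem _ ?_ hu', ?_⟩
    · have := a_UIC h IsPos c'⁻¹ u hu
      rwa [map_inv, inv_inv] at this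
    · rw [map_mul]
      group
  inv_mem' := by
    rintro _ ⟨c, u, hu, rfl⟩
    refine ⟨c⁻¹, τ c * u⁻¹ * (τ c)⁻¹, a_UIC h IsPos c _ (Subgroup.inv_mem _ hu), ?_⟩
    rw [map_inv]
    group

private lemma mem_BoS (h : CD x τ) {b : Γ} : b ∈ BoS h ↔ b ∈ Bo x τ := Iff.rfl

private lemma Ug_le_BoS (h : CD x τ) {u : Γ} (hu : u ∈ Ug x IsPos) : u ∈ BoS h :=
  ⟨1, u, hu, by rw [map_one, one_mul]⟩

private lemma BoS_norm (h : CD x τ) {b u : Γ} (hb : b ∈ BoS h) (hu : u ∈ Ug x IsPos) :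
    b * u * b⁻¹ ∈ Ug x IsPos := by
  obtain ⟨c, v, hv, rfl⟩ := hb
  have e : τ c * v * u * (τ c * v)⁻¹ = τ c * (v * u * v⁻¹) * (τ c)⁻¹ := by group
  rw [e]
  exact a_UIC h IsPos c _ (Subgroup.mul_mem _ (Subgroup.mul_mem _ hv hu) (Subgroup.inv_mem _ hv))

private lemma exists_nbr (hC : Cartan C) (hl : 2 ≤ l) (i : Fin l) : ∃ j, j ≠ i ∧ C i j = -1 := by
  have h1 : ({i} : Set (Fin l))ᶜ.Nonempty := by
    by_cases hi : i.val = 0
    · exact ⟨⟨1, by omega⟩, fun h => by
        have := congrArg Fin.val (Set.mem_singleton_iff.1 h)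
        simp only at this
        omega⟩
    · exact ⟨⟨0, by omega⟩, fun h => by
        have := congrArg Fin.val (Set.mem_singleton_iff.1 h)
        simp only at this
        omega⟩
  obtain ⟨i', hi', j, hj, hij⟩ := hC.conn {i} ⟨i, rfl⟩ h1
  rw [Set.mem_singleton_iff] at hi'
  subst hi'
  have hji : j ≠ i' := hj
  refine ⟨j, hji, ?_⟩
  rcases hC.off i' j (Ne.symm hji) with h | h
  · exact absurd h hij
  · exact h

/-- a central element is trivial, the group is not commutative -/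
private lemma noncomm_pair (h : CD x τ) {α γ δ : Root C} (hd : δ.1 = α.1 + γ.1)
    {s t : F} (hs : x α s * x γ t = x γ t * x α s) (ht : t ≠ 0) : s = 0 := by
  have h1 := h.com α γ δ hd s t
  rw [hs] at h1
  have h2 : x δ ((eps C α.1 γ.1 : F) * s * t) = x δ 0 := by
    rw [x_zero h]
    exact (right_eq_mul.1 h1)
  have h3 := h.inj _ _ _ h2
  rcases mul_eq_zero.1 h3 with h4 | h4
  · rcases mul_eq_zero.1 h4 with h5 | h5
    · exact absurd h5 (eps_ne_zero_F _ _)
    · exact h5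
  · exact absurd h4 ht

/-- SIM: simplicity -/
theorem pf_SIM (hBRU : T_BRU) (hSIU : T_SIU) (_hSIR : T_SIR) (hNEL : T_NEL) (_hUNQ : T_UNQ) :
    T_SIM := by
  intro l C hC hl F Γ _ _ _ x τ h
  have hnc : ∃ a b : Γ, a * b ≠ b * a := by
    obtain ⟨γ, hγ⟩ := a_NBR hC hl (sr hC ⟨0, by omega⟩)
    refine ⟨x (sr hC ⟨0, by omega⟩) 1, x γ 1, fun hab => ?_⟩
    exact one_ne_zero (noncomm_pair h (δ := ad hC _ γ hγ) rfl hab one_ne_zero)
  have hnt : Nontrivial Γ := by
    obtain ⟨a, b, hab⟩ := hnc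
    exact ⟨a, b, fun h1 => hab (by rw [h1])⟩
  refine ⟨⟨?_⟩, hnc⟩
  intro X hXn
  by_cases hXt : X = ⊤
  · exact Or.inr hXt
  left
  -- (1)
  have h1 : ∀ u ∈ Ug x IsPos, u ∈ X → u = 1 := by
    intro u hu huX
    by_contra hne
    exact hXt (hSIU hC hl h X hXn u hu huX hne)
  -- (2)
  have h2 : ∀ i : Fin l, ∀ (n : Γ) (w : (Fin l → ℤ) ≃+ (Fin l → ℤ)), Wn x τ n w →
      (∀ v, w v = v - ip C v (si i) • si i) → n ∉ X ⊔ BoS h := by
    intro i n w hW hw hn
    rw [← SetLike.mem_coe, Subgroup.normal_mul] at hn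
    obtain ⟨x0, hx0, b, hb, hxb⟩ := hn
    have hxb' : x0 * b = n := hxb
    obtain ⟨c, u, hu, rfl⟩ := hb
    obtain ⟨j, hji, hCij⟩ := exists_nbr hC hl i
    have hsj : IsPos (sr hC j) := fun k => by
      rw [sr_val, si, Pi.single_apply]
      split_ifs <;> norm_num
    have hsi : IsPos (sr hC i) := fun k => by
      rw [sr_val, si, Pi.single_apply]
      split_ifs <;> norm_num
    have hsij : si j ≠ si i := fun he => by
      have := congrFun he j
      simp [si, hji] at this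
    -- n conjugates positive roots other than si i to positive roots
    have hconj : ∀ γ : Root C, IsPos γ → γ.1 ≠ si i → ∀ t, n * x γ t * n⁻¹ ∈ Ug x IsPos := by
      intro γ hγ hne t
      obtain ⟨γ', hγ', hc1, _⟩ := hW.2.2 γ
      obtain ⟨t', ht'⟩ := hc1 t
      rw [ht']
      exact x_mem (refl_pos hC i hγ hne (by rw [hγ', hw])) _
    -- b⁻¹ x_j(1) b
    set a : F := ((chi C c⁻¹ (sr hC j).1 : Fˣ) : F) * 1 with ha
    have ha0 : a ≠ 0 := by
      rw [ha, mul_one]
      exact Units.ne_zero _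
    have htor : (τ c)⁻¹ * x (sr hC j) 1 * τ c = x (sr hC j) a := by
      have := h.tor c⁻¹ (sr hC j) 1
      rw [map_inv] at this
      rw [this, inv_mul_cancel_right]
    obtain ⟨z, hz, he⟩ := comm_Ug hC h hsj a u hu
    have hE1 : n * (x (sr hC j) a * z) * n⁻¹ ∈ Ug x IsPos := by
      have e : n * (x (sr hC j) a * z) * n⁻¹ = (n * x (sr hC j) a * n⁻¹) * (n * z * n⁻¹) := by
        group
      rw [e]
      refine Subgroup.mul_mem _ (hconj _ hsj hsij a) ?_
      refine conj_Ug (p := P2) n (fun β t hβ => hconj β hβ.1 ?_ t) z hz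
      intro hβi
      have := hβ.2
      rw [hβi, ht_si] at this
      norm_num at this
    have hE2 : n * (x (sr hC j) a * z) * n⁻¹ = x0 * x (sr hC j) 1 * x0⁻¹ := by
      rw [← he, ← htor, ← hxb']
      group
    have hE3 : n * (x (sr hC j) a * z) * n⁻¹ * (x (sr hC j) 1)⁻¹ = 1 := by
      refine h1 _ (Subgroup.mul_mem _ hE1 (Subgroup.inv_mem _ (x_mem hsj 1))) ?_
      rw [hE2]
      have e : x0 * x (sr hC j) 1 * x0⁻¹ * (x (sr hC j) 1)⁻¹ =
          x0 * (x (sr hC j) 1 * x0⁻¹ * (x (sr hC j) 1)⁻¹) := by group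
      rw [e]
      exact X.mul_mem hx0 (hXn.conj_mem _ (X.inv_mem hx0) _)
    -- n⁻¹ x_j(1) n
    have hij : ip C (sr hC i).1 (sr hC j).1 = -1 := by
      rw [sr_val, sr_val, ip_si_si, hCij]
    obtain ⟨γ', hγ', _, hc2⟩ := hW.2.2 (ad hC (sr hC i) (sr hC j) hij)
    have hγj : γ' = sr hC j := by
      refine Subtype.ext ?_
      rw [hγ', hw, ad_val, sr_val, sr_val, ip_add_left, ip_si_si, ip_si_si, hC.diag, hC.symm j i,
        hCij]
      norm_num
    obtain ⟨t', ht'⟩ := hc2 1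
    rw [hγj] at ht'
    have hU2 : x (ad hC (sr hC i) (sr hC j) hij) t' ∈ Ug x P2 := by
      refine x_mem ⟨fun k => add_nonneg (hsi k) (hsj k), ?_⟩ _
      rw [ad_val, ht_add, sr_val, sr_val, ht_si, ht_si]
      norm_num
    have hE4 : x (sr hC j) a * z = x (ad hC (sr hC i) (sr hC j) hij) t' := by
      rw [← ht']
      rw [mul_inv_eq_one] at hE3
      rw [← hE3]
      group
    have hE5 : x (sr hC j) a ∈ Ug x P2 := by
      have : x (sr hC j) a = x (ad hC (sr hC i) (sr hC j) hij) t' * z⁻¹ := by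
        rw [← hE4, mul_inv_cancel_right]
      rw [this]
      exact Subgroup.mul_mem _ hU2 (Subgroup.inv_mem _ hz)
    refine ha0 (a_UIT hC h j a (Ug_mono (fun β hβ => ⟨hβ.1, fun hβj => ?_⟩) hE5))
    have := hβ.2
    rw [hβj, ht_si] at this
    norm_num at this
  -- (3)
  have h3 : ∀ g ∈ X, ∀ γ : Root C, IsPos γ → ∀ t, g * x γ t = x γ t * g := by
    intro g hg
    obtain ⟨b, hb, n, w, hW, b', hb', hgb⟩ := hBRU hC h g
    have hbP : b ∈ X ⊔ BoS h := (le_sup_right : BoS h ≤ X ⊔ BoS h) hb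
    have hbP' : b' ∈ X ⊔ BoS h := (le_sup_right : BoS h ≤ X ⊔ BoS h) hb'
    have hgP : g ∈ X ⊔ BoS h := (le_sup_left : X ≤ X ⊔ BoS h) hg
    have hnP : n ∈ X ⊔ BoS h := by
      have e : n = b⁻¹ * g * b'⁻¹ := by rw [hgb]; group
      rw [e]
      exact Subgroup.mul_mem _ (Subgroup.mul_mem _ (Subgroup.inv_mem _ hbP) hgP)
        (Subgroup.inv_mem _ hbP')
    have hUP : ∀ γ : Root C, IsPos γ → ∀ t, x γ t ∈ X ⊔ BoS h := fun γ hγ t =>
      (le_sup_right : BoS h ≤ X ⊔ BoS h) (Ug_le_BoS h (x_mem hγ t))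
    -- w maps simple roots to positive vectors
    have hws : ∀ i k, 0 ≤ w (si i) k := by
      intro i
      obtain ⟨γ', hγ', _, _⟩ := hW.2.2 (sr hC i)
      rcases (a_POS hC).1 γ' with hp | hp
      · intro k
        have := hp k
        rwa [hγ'] at this
      · exfalso
        obtain ⟨ni, wi, hWi, hwi, _, hni, _⟩ := hNEL hC h i
        refine h2 i ni wi hWi hwi ?_
        obtain ⟨γ2, hγ2, hc1, _⟩ := hW.2.2 (ng (sr hC i))
        have hγ2p : IsPos γ2 := by
          intro k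
          have h4 := hp k
          rw [hγ'] at h4
          rw [hγ2, ng_val, map_neg, Pi.neg_apply]
          omega
        have hmem : x (ng (sr hC i)) 1 ∈ X ⊔ BoS h := by
          obtain ⟨t', ht'⟩ := hc1 1
          have e : x (ng (sr hC i)) 1 = n⁻¹ * x γ2 t' * n := by rw [← ht']; group
          rw [e]
          exact Subgroup.mul_mem _ (Subgroup.mul_mem _ (Subgroup.inv_mem _ hnP) (hUP _ hγ2p _))
            hnP
        have hsi : IsPos (sr hC i) := fun k => by
          rw [sr_val, si, Pi.single_apply]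
          split_ifs <;> norm_num
        rw [hni]
        exact Subgroup.mul_mem _ (Subgroup.mul_mem _ (hUP _ hsi _) hmem) (hUP _ hsi _)
    have hwp : ∀ γ : Root C, IsPos γ → ∀ k, 0 ≤ w γ.1 k := by
      intro γ hγ k
      rw [eq_sum_si γ.1, map_sum, Finset.sum_apply]
      refine Finset.sum_nonneg fun i _ => ?_
      rw [map_zsmul, Pi.smul_apply, smul_eq_mul]
      exact mul_nonneg (hγ i) (hws i k)
    have hnU : ∀ u ∈ Ug x IsPos, n * u * n⁻¹ ∈ Ug x IsPos := by
      refine conj_Ug n fun β t hβ => ?_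
      obtain ⟨γ', hγ', hc1, _⟩ := hW.2.2 β
      obtain ⟨t', ht'⟩ := hc1 t
      rw [ht']
      refine x_mem (fun k => ?_) _
      rw [hγ']
      exact hwp β hβ k
    intro γ hγ t
    have hgU : g * x γ t * g⁻¹ ∈ Ug x IsPos := by
      have e : g * x γ t * g⁻¹ = b * (n * (b' * x γ t * b'⁻¹) * n⁻¹) * b⁻¹ := by
        rw [hgb]
        group
      rw [e]
      exact BoS_norm h hb (hnU _ (BoS_norm h hb' (x_mem hγ t)))
    have h5 : g * x γ t * g⁻¹ * (x γ t)⁻¹ = 1 := by
      refine h1 _ (Subgroup.mul_mem _ hgU (Subgroup.inv_mem _ (x_mem hγ t))) ?_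
      have e : g * x γ t * g⁻¹ * (x γ t)⁻¹ = g * (x γ t * g⁻¹ * (x γ t)⁻¹) := by group
      rw [e]
      exact X.mul_mem hg (hXn.conj_mem _ (X.inv_mem hg) _)
    rw [mul_inv_eq_one, mul_inv_eq_iff_eq_mul] at h5
    exact h5
  -- (4)
  have h4 : ∀ g ∈ X, ∀ i : Fin l, ∀ t, g * x (ng (sr hC i)) t = x (ng (sr hC i)) t * g := by
    intro g hg i t
    obtain ⟨ni, wi, hWi, hwi, _, _, _⟩ := hNEL hC h i
    obtain ⟨γ', hγ', hc1, _⟩ := hWi.2.2 (ng (sr hC i))
    have hγi : γ' = sr hC i := by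
      refine Subtype.ext ?_
      rw [hγ', hwi, ng_val, sr_val, ip_neg_left, ip_si_si, hC.diag]
      funext k
      simp only [Pi.sub_apply, Pi.neg_apply, Pi.smul_apply, smul_eq_mul]
      ring
    obtain ⟨t', ht'⟩ := hc1 t
    rw [hγi] at ht'
    have hsi : IsPos (sr hC i) := fun k => by
      rw [sr_val, si, Pi.single_apply]
      split_ifs <;> norm_num
    have h5 := h3 _ (hXn.conj_mem g hg ni) (sr hC i) hsi t'
    have e : x (ng (sr hC i)) t = ni⁻¹ * x (sr hC i) t' * ni := by rw [← ht']; group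
    have e1 : g * x (ng (sr hC i)) t = ni⁻¹ * (ni * g * ni⁻¹ * x (sr hC i) t') * ni := by
      rw [e]; group
    have e2 : x (ng (sr hC i)) t * g = ni⁻¹ * (x (sr hC i) t' * (ni * g * ni⁻¹)) * ni := by
      rw [e]; group
    rw [e1, e2, h5]
  have h5 : ∀ g ∈ X, ∀ y : Γ, g * y = y * g := by
    intro g hg
    have h6 : (⊤ : Subgroup Γ) ≤ Subgroup.centralizer {g} := by
      rw [← a_GEN hC h]
      refine (Subgroup.closure_le _).2 ?_
      rintro _ ⟨i, t, rfl | rfl⟩
      · rw [SetLike.mem_coe, Subgroup.mem_centralizer_singleton_iff]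
        refine (h3 g hg (sr hC i) (fun k => ?_) t).symm
        rw [sr_val, si, Pi.single_apply]
        split_ifs <;> norm_num
      · rw [SetLike.mem_coe, Subgroup.mem_centralizer_singleton_iff]
        exact (h4 g hg i t).symm
    intro y
    have := h6 (Subgroup.mem_top y)
    rw [Subgroup.mem_centralizer_singleton_iff] at this
    exact this.symm
  rw [eq_bot_iff]
  intro g hg
  rw [Subgroup.mem_bot]
  obtain ⟨t, ht⟩ := h.cen (sr hC ⟨0, by omega⟩) g fun γ _ t => h5 g hg _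
  obtain ⟨γ, hγ⟩ := a_NBR hC hl (sr hC ⟨0, by omega⟩)
  have h6 := h5 g hg (x γ 1)
  rw [ht] at h6 ⊢
  rw [noncomm_pair h (δ := ad hC _ γ hγ) rfl h6 one_ne_zero, x_zero h]

end Pool.Agent.H65.KGR
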